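import Pool.Agent.W_448rd_h10.RdG
import Pool.Agent.W_448p_h97.PaC

/-!
MP_448cb3_co, G2, window `j - 1`: the trivial half of the inequality for cores.  helper61.

`2 (|AL| + |AU|) ≤ energy + 2 (pL + pU)` for every core of a matched window, with one more if an
element at distance at least three is positive.
-/

namespace Pool.Agent.GaussPoset.Win.Rd

set_option linter.unusedSectionVars false

open Finset I2 K2
open Pool.Agent.GaussPoset.Win.H2 (SdT NoT low_T up_T sum_all)

universe u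

variable {P : Type u} [Fintype P] [PartialOrder P] [DecidableEq P] {r i : ℕ} {e : P → ℕ}
variable {psi : P → P}

/-- THE HALF OF THE INEQUALITY FOR CORES, with one more for a far element -/
theorem half_far (H : Gr P r) (hir : i ≤ r) (hq : NoQ P (i + 2))
    (hg : ∀ m, m + 1 = i → Good P m) (hM : Mat P i ∅ psi)
    (hL : AdmL i e) (hU : AdmU i e) (hd : Disjoint (AL i e) (AU i e))
    (hc : IsCore i ∅ psi e) {δ : ℕ}
    (hδ : δ = 0 ∨ δ = 1 ∧ ∃ z : P, (i + 3 ≤ lev z ∨ lev z + 3 ≤ i) ∧ 1 ≤ e z) :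
    2 * (((AL i e).card : ℤ) + (AU i e).card) + δ ≤
      ∑ x, (e x : ℤ) + 2 * ((pL i e : ℤ) + pU i e) := by
  classical
  have hps : W4.ps (∅ : Finset P) psi = psi := by
    funext x
    unfold W4.ps
    rw [if_neg (notMem_empty x)]
  obtain ⟨XL, XU, hXL, hXU, h⟩ := main_K hM H hir hq hg hL hU hd hδ
  have h1 : K2.SK i (∅ : Finset P) psi e = ∅ := Pa.core_SK hM (by rw [hps]; exact hc)
  have h2 : K2.KB i (∅ : Finset P) e = ∅ := by
    rw [eq_empty_iff_forall_notMem]
    intro y hy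
    rw [mem_KB] at hy
    exact notMem_empty y hy.1
  rw [h1, h2, card_empty] at h
  have h3 : Disjoint XL XU := by
    rw [disjoint_left]
    intro x hx hx'
    obtain ⟨a1, a2, ⟨y, hy⟩, a3⟩ := hXL x hx
    obtain ⟨b1, b2, b3, b4⟩ := hXU x hx'
    obtain ⟨hyb, -⟩ := a3 y hy
    obtain ⟨k1, k2⟩ := mem_bL hM H hq hyb
    obtain ⟨p1, p2, p3, p4⟩ := psi_low hM k1 (notMem_empty _)
    have h5 : psi y ∈ uc x := by
      rw [mem_uc, ← mem_dc, p2, mem_uc, ← mem_dc]
      exact hy
    obtain ⟨hpb, -⟩ := b4 _ h5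
    obtain ⟨m1, m2⟩ := mem_bU hM H hir hg hpb
    unfold bL at hyb
    rw [mem_bd] at hyb
    obtain ⟨-, -, -, ⟨a, ha, hlt⟩, -⟩ := hyb
    have hla := lev_uc H ha
    have hly := mem_dbL.1 k1
    refine not_both (e := e) hd (x := a) (by omega) (mem_dc.2 (mem_uc.1 ha))
      (u := psi y) (by rw [mem_uc, ← mem_dc, p2]; exact ha) ⟨by omega, by omega⟩
  have h4 : XL.card + XU.card ≤ ∑ x ∈ lv P i, e x := by
    rw [← card_union_of_disjoint h3]
    have h5 : XL ∪ XU ⊆ lv P i := by
      intro x hx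
      rw [mem_union] at hx
      rw [mem_lv]
      rcases hx with hx | hx
      · exact (hXL x hx).1
      · exact (hXU x hx).1
    refine le_trans ?_ (sum_le_sum_of_subset h5)
    rw [card_eq_sum_ones]
    apply sum_le_sum
    intro x hx
    rw [mem_union] at hx
    rcases hx with hx | hx
    · exact (hXL x hx).2.1
    · exact (hXU x hx).2.1
  have h6 := sum_all (i := i) e
  have h7 : (2 * (((AL i e).card : ℤ) + (AU i e).card) + δ) ≤
      ∑ x ∈ lS P i, (e x : ℤ) + ∑ x ∈ uS P i, (e x : ℤ) + 2 * ((pL i e : ℤ) + pU i e) +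
        XL.card + XU.card := by
    have := h
    simp only [add_zero] at this
    exact_mod_cast this
  have h8 : ((XL.card : ℤ) + XU.card) ≤ ∑ x ∈ lv P i, (e x : ℤ) := by exact_mod_cast h4
  rw [h6]
  linarith

/-- THE HALF OF THE INEQUALITY FOR CORES -/
theorem half (G : GoodTo P r (i + 1)) (hT : NoT P (i + 2)) (hM : Mat P i ∅ psi)
    (hL : AdmL i e) (hU : AdmU i e) (hd : Disjoint (AL i e) (AU i e))
    (hc : IsCore i ∅ psi e) :
    2 * (((AL i e).card : ℤ) + (AU i e).card) ≤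
      ∑ x, (e x : ℤ) + 2 * ((pL i e : ℤ) + pU i e) := by
  have := half_far G.H (by have := G.hr; omega) hT.noQ (fun m hm => G.good m (by omega)) hM hL hU
    hd hc (δ := 0) (Or.inl rfl)
  simpa using this

/-- the half of the inequality for cores, a far element is positive -/
theorem half_one (G : GoodTo P r (i + 1)) (hT : NoT P (i + 2)) (hM : Mat P i ∅ psi)
    (hL : AdmL i e) (hU : AdmU i e) (hd : Disjoint (AL i e) (AU i e))
    (hc : IsCore i ∅ psi e) {z : P} (hz : i + 3 ≤ lev z ∨ lev z + 3 ≤ i) (h1 : 1 ≤ e z) :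
    2 * (((AL i e).card : ℤ) + (AU i e).card) + 1 ≤
      ∑ x, (e x : ℤ) + 2 * ((pL i e : ℤ) + pU i e) := by
  have := half_far G.H (by have := G.hr; omega) hT.noQ (fun m hm => G.good m (by omega)) hM hL hU
    hd hc (δ := 1) (Or.inr ⟨rfl, z, hz, h1⟩)
  simpa using this

end Pool.Agent.GaussPoset.Win.Rd
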